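import Pool.Agent.Work.MP_d20435_h42.Seq

/-!
# MP_d20435_nt: counting starting values by the first term
-/

set_option autoImplicit false

namespace Pool.Agent.Work.MP_d20435_h42

open Finset

open Classical in
/-- the number of starting values in `[1, x]` whose first term is in `S` -/
theorem count_first (S : Set ℕ) (x G : ℕ) (ε : ℝ) (hε : 0 ≤ ε)
    (hS : ∀ g : ℕ, G ≤ g → (((Finset.Icc 1 g).filter fun n => n ∈ S).card : ℝ) ≤ ε * g) :
    (((Finset.Icc 1 x).filter fun m => nextP m - m ∈ S).card : ℝ) ≤
      G * (Nat.primeCounting (2 * x + 2) : ℝ) + 2 * ε * (2 * x + 2) := by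
  set A := (Finset.Icc 1 x).filter fun m => nextP m - m ∈ S with hA
  set Q := A.image nextP with hQ
  have hQle : ∀ q ∈ Q, q.Prime ∧ q ≤ 2 * x + 2 := by
    intro q hq
    obtain ⟨m, hm, rfl⟩ := Finset.mem_image.1 hq
    have h1 := (Finset.mem_Icc.1 (Finset.mem_filter.1 hm).1).2
    exact ⟨(nextP_spec m).1, (nextP_le m).trans (by omega)⟩
  let F : ℕ → Finset ℕ := fun q => (Finset.range (2 * x + 2)).filter fun m => nextP m = q
  have hT : ∀ q ∈ Q, ((A.filter fun m => nextP m = q).card : ℝ) ≤ G + 2 * ε * (F q).card := by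
    intro q hq
    set T := A.filter fun m => nextP m = q with hTd
    have hTne : T.Nonempty := by
      obtain ⟨m, hm, hmq⟩ := Finset.mem_image.1 hq
      exact ⟨m, Finset.mem_filter.2 ⟨hm, hmq⟩⟩
    have hkey : ∀ m ∈ T, q - m ≤ (F q).card + 1 := by
      intro m hm
      obtain ⟨hmA, hmq⟩ := Finset.mem_filter.1 hm
      have h1 : Finset.Icc m (q - 2) ⊆ F q := by
        intro m' hm'
        rw [Finset.mem_Icc] at hm'
        have h2 := (nextP_spec m).2
        rw [hmq] at h2
        have h3 := (hQle q hq).2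
        refine Finset.mem_filter.2 ⟨Finset.mem_range.2 (by omega), nextP_eq hmq hm'.1 (by omega)⟩
      have h4 := Finset.card_le_card h1
      rw [Nat.card_Icc] at h4
      omega
    have hinj : T.card ≤ ((Finset.Icc 1 ((F q).card + 1)).filter fun n => n ∈ S).card := by
      refine Finset.card_le_card_of_injOn (fun m => q - m) ?_ ?_
      · intro m hm
        have hm' := Finset.mem_coe.1 hm
        obtain ⟨hmA, hmq⟩ := Finset.mem_filter.1 hm'
        have h2 := (nextP_spec m).2
        rw [hmq] at h2
        have h5 := (Finset.mem_filter.1 hmA).2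
        rw [hmq] at h5
        exact Finset.mem_coe.2 (Finset.mem_filter.2 ⟨Finset.mem_Icc.2 ⟨by simp only; omega, hkey m hm'⟩, h5⟩)
      · intro m hm m' hm' he
        have h1 := (nextP_spec m).2
        rw [(Finset.mem_filter.1 (Finset.mem_coe.1 hm)).2] at h1
        have h2 := (nextP_spec m').2
        rw [(Finset.mem_filter.1 (Finset.mem_coe.1 hm')).2] at h2
        simp only at he
        omega
    have hg1 : 1 ≤ (F q).card := by
      obtain ⟨m, hm⟩ := hTne
      have h1 := hkey m hm
      have h2 := (nextP_spec m).2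
      rw [(Finset.mem_filter.1 hm).2] at h2
      omega
    have hg1' : (1 : ℝ) ≤ ((F q).card : ℝ) := by exact_mod_cast hg1
    rcases Nat.lt_or_ge ((F q).card + 1) G with hlt | hge
    · have h1 : T.card ≤ G := by
        refine hinj.trans ((Finset.card_filter_le _ _).trans ?_)
        rw [Nat.card_Icc]
        omega
      have h2 : (T.card : ℝ) ≤ G := by exact_mod_cast h1
      have h3 : 0 ≤ 2 * ε * ((F q).card : ℝ) := by positivity
      linarith
    · have h1 := hS _ hge
      have h2 : (T.card : ℝ) ≤ (((Finset.Icc 1 ((F q).card + 1)).filter fun n => n ∈ S).card : ℝ) := by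
        exact_mod_cast hinj
      push_cast at h1
      have h3 : ε * ((F q).card + 1 : ℝ) ≤ 2 * ε * ((F q).card : ℝ) := by nlinarith
      have h4 : (0 : ℝ) ≤ G := Nat.cast_nonneg _
      linarith
  have hcA : (A.card : ℝ) = ∑ q ∈ Q, ((A.filter fun m => nextP m = q).card : ℝ) := by
    have := Finset.card_eq_sum_card_fiberwise (f := nextP) (s := A) (t := Q)
      (fun m hm => Finset.mem_coe.2 (Finset.mem_image_of_mem _ (Finset.mem_coe.1 hm)))
    exact_mod_cast this
  have hF : ∑ q ∈ Q, (F q).card ≤ 2 * x + 2 := by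
    have h1 : ∑ q ∈ Q, (F q).card = (Q.biUnion F).card := by
      rw [Finset.card_biUnion]
      intro q _ q' _ hne
      rw [Function.onFun, Finset.disjoint_left]
      intro m hm hm'
      exact hne ((Finset.mem_filter.1 hm).2.symm.trans (Finset.mem_filter.1 hm').2)
    rw [h1]
    have h2 : Q.biUnion F ⊆ Finset.range (2 * x + 2) := by
      intro m hm
      obtain ⟨q, _, hq⟩ := Finset.mem_biUnion.1 hm
      exact (Finset.mem_filter.1 hq).1
    have := Finset.card_le_card h2
    rwa [Finset.card_range] at this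
  have hQc : Q.card ≤ Nat.primeCounting (2 * x + 2) := by
    rw [Nat.primeCounting, Nat.primeCounting', Nat.count_eq_card_filter_range]
    refine Finset.card_le_card fun q hq => ?_
    obtain ⟨h1, h2⟩ := hQle q hq
    exact Finset.mem_filter.2 ⟨Finset.mem_range.2 (by omega), h1⟩
  rw [hcA]
  calc ∑ q ∈ Q, ((A.filter fun m => nextP m = q).card : ℝ)
      ≤ ∑ q ∈ Q, ((G : ℝ) + 2 * ε * (F q).card) := Finset.sum_le_sum hT
    _ = Q.card * (G : ℝ) + 2 * ε * ((∑ q ∈ Q, (F q).card : ℕ) : ℝ) := by
        rw [Finset.sum_add_distrib, Finset.sum_const, nsmul_eq_mul, ← Finset.mul_sum]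
        push_cast
        rfl
    _ ≤ (Nat.primeCounting (2 * x + 2) : ℝ) * G + 2 * ε * (2 * x + 2) := by
        have h1 : ((∑ q ∈ Q, (F q).card : ℕ) : ℝ) ≤ 2 * x + 2 := by exact_mod_cast hF
        have h2 : (Q.card : ℝ) ≤ (Nat.primeCounting (2 * x + 2) : ℝ) := by exact_mod_cast hQc
        have h3 : (0 : ℝ) ≤ G := Nat.cast_nonneg _
        gcongr
    _ = _ := by ring

/-- Chebyshev's upper bound for all arguments -/
theorem pi_le (g : ℕ) (hg : 2 ≤ g) : (Nat.primeCounting g : ℝ) ≤ 5 * g / Real.log g := by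
  have hg1 : (1 : ℝ) < g := by exact_mod_cast (by omega : 1 < g)
  have h1 := Chebyshev.pi_le_log4_mul_div hg1
  rw [Nat.floor_natCast] at h1
  have hlog : 0 < Real.log g := Real.log_pos hg1
  have hs : Real.log √(g : ℝ) = Real.log g / 2 := Real.log_sqrt (by positivity)
  rw [hs] at h1
  have h4 : Real.log 4 ≤ 3 / 2 := by
    have : Real.log 4 = 2 * Real.log 2 := by
      rw [show (4 : ℝ) = 2 ^ 2 by norm_num, Real.log_pow]; norm_num
    rw [this]
    have := Real.log_two_lt_d9
    linarith
  have hsq : Real.log g ≤ 2 * √(g : ℝ) := by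
    have h5 : Real.log √(g : ℝ) ≤ √(g : ℝ) := Real.log_le_self (Real.sqrt_nonneg _)
    rw [hs] at h5
    linarith
  have hss : √(g : ℝ) * √(g : ℝ) = g := Real.mul_self_sqrt (by positivity)
  rw [le_div_iff₀ hlog]
  have h6 : √(g : ℝ) * Real.log g ≤ 2 * g := by nlinarith [Real.sqrt_nonneg (g : ℝ)]
  have h7 : Real.log 4 * g / (Real.log g / 2) * Real.log g = 2 * Real.log 4 * g := by
    field_simp
  have h8 : (Nat.primeCounting g : ℝ) * Real.log g ≤
      (Real.log 4 * g / (Real.log g / 2) + √(g : ℝ)) * Real.log g := by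
    gcongr
  rw [add_mul, h7] at h8
  nlinarith

open Classical in
/-- few starting values have a prime first term -/
theorem count_prime (x : ℕ) (hx : 16 ≤ x) :
    (((Finset.Icc 1 x).filter fun m => (nextP m - m).Prime).card : ℝ) ≤
      160 * x / Real.log (Real.log x) := by
  have hx1 : (16 : ℝ) ≤ x := by exact_mod_cast hx
  set L := Real.log x with hL
  have hL2 : 2 ≤ L := by
    have h1 : Real.log 16 ≤ L := Real.log_le_log (by norm_num) hx1
    have h2 : Real.log 16 = 4 * Real.log 2 := by
      rw [show (16 : ℝ) = 2 ^ 4 by norm_num, Real.log_pow]; norm_num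
    have := Real.log_two_gt_d9
    linarith
  have hL16 : Real.exp 1 < L := by
    have h1 : Real.log 16 ≤ L := Real.log_le_log (by norm_num) hx1
    have h2 : Real.log 16 = 4 * Real.log 2 := by
      rw [show (16 : ℝ) = 2 ^ 4 by norm_num, Real.log_pow]; norm_num
    have := Real.log_two_gt_d9
    have := Real.exp_one_lt_d9
    linarith
  have hLL : 1 < Real.log L := by
    rw [Real.lt_log_iff_exp_lt (by linarith)]
    exact hL16
  set s := √L with hs
  have hs0 : 0 < s := Real.sqrt_pos.2 (by linarith)
  have hss : s * s = L := Real.mul_self_sqrt (by linarith)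
  have hs1 : 1 < s := by nlinarith
  set G := ⌈s⌉₊ with hG
  have hG1 : s ≤ G := Nat.le_ceil s
  have hG2 : (G : ℝ) < s + 1 := Nat.ceil_lt_add_one hs0.le
  have hGN : 2 ≤ G := by
    have : (1 : ℝ) < G := by linarith
    exact_mod_cast this
  have hlogs : Real.log s = Real.log L / 2 := Real.log_sqrt (by linarith)
  have hlogG : Real.log L / 2 ≤ Real.log G := by
    rw [← hlogs]
    exact Real.log_le_log hs0 hG1
  have hlogG0 : 0 < Real.log G := by linarith
  have hc := count_first {n | n.Prime} x G (5 / Real.log G) (by positivity) (by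
    intro g hg
    have hg2 : 2 ≤ g := hGN.trans hg
    have h1 : (((Finset.Icc 1 g).filter fun n => n ∈ {n : ℕ | n.Prime}).card : ℝ) ≤
        (Nat.primeCounting g : ℝ) := by
      rw [Nat.primeCounting, Nat.primeCounting', Nat.count_eq_card_filter_range]
      have : ((Finset.Icc 1 g).filter fun n => n ∈ {n : ℕ | n.Prime}).card ≤
          ((Finset.range (g + 1)).filter Nat.Prime).card := by
        refine Finset.card_le_card fun q hq => ?_
        obtain ⟨h1, h2⟩ := Finset.mem_filter.1 hq
        rw [Finset.mem_Icc] at h1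
        exact Finset.mem_filter.2 ⟨Finset.mem_range.2 (by omega), h2⟩
      exact_mod_cast this
    refine le_trans (by simpa using h1) (le_trans (pi_le g hg2) ?_)
    have hgR : (G : ℝ) ≤ g := by exact_mod_cast hg
    have hg0 : (0 : ℝ) ≤ g := Nat.cast_nonneg _
    have hGpos : (0 : ℝ) < G := by linarith
    have h3 : Real.log G ≤ Real.log g := Real.log_le_log hGpos hgR
    rw [mul_div_right_comm]
    gcongr)
  have hc' : (((Finset.Icc 1 x).filter fun m => (nextP m - m).Prime).card : ℝ) ≤
      G * (Nat.primeCounting (2 * x + 2) : ℝ) + 2 * (5 / Real.log G) * (2 * x + 2) := by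
    simpa using hc
  refine hc'.trans ?_
  have hlogLs : Real.log L ≤ 2 * s := by
    have h5 : Real.log s ≤ s := Real.log_le_self hs0.le
    linarith
  have hpi := pi_le (2 * x + 2) (by omega)
  push_cast at hpi
  have hlogx : L ≤ Real.log (2 * x + 2) := Real.log_le_log (by linarith) (by linarith)
  have h1 : (Nat.primeCounting (2 * x + 2) : ℝ) ≤ 20 * x / L := by
    refine hpi.trans ?_
    rw [div_le_div_iff₀ (by linarith) (by linarith)]
    have : 5 * (2 * (x : ℝ) + 2) ≤ 20 * x := by linarith
    have h0 : 0 ≤ L := by linarith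
    have h9 : 5 * (2 * (x : ℝ) + 2) * L ≤ 20 * x * L := by gcongr
    have h10 : 20 * (x : ℝ) * L ≤ 20 * x * Real.log (2 * x + 2) := by gcongr
    linarith
  have h2 : (G : ℝ) * (Nat.primeCounting (2 * x + 2) : ℝ) ≤ 80 * x / Real.log L := by
    have hGs : (G : ℝ) ≤ 2 * s := by linarith
    calc (G : ℝ) * (Nat.primeCounting (2 * x + 2) : ℝ) ≤ (2 * s) * (20 * x / L) := by
          have : (0 : ℝ) ≤ (Nat.primeCounting (2 * x + 2) : ℝ) := Nat.cast_nonneg _
          gcongr
      _ = 40 * x / s := by
          rw [← hss]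
          field_simp
          ring
      _ ≤ 80 * x / Real.log L := by
          rw [div_le_div_iff₀ hs0 (by linarith)]
          have hx0 : (0 : ℝ) ≤ x := by linarith
          nlinarith
  have h3 : 2 * (5 / Real.log G) * (2 * (x : ℝ) + 2) ≤ 80 * x / Real.log L := by
    have h4 : 5 / Real.log G ≤ 10 / Real.log L := by
      rw [div_le_div_iff₀ hlogG0 (by linarith)]
      linarith
    have h5 : 2 * (x : ℝ) + 2 ≤ 4 * x := by linarith
    calc 2 * (5 / Real.log G) * (2 * (x : ℝ) + 2) ≤ 2 * (10 / Real.log L) * (4 * x) := by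
          have h0 : 0 ≤ 5 / Real.log G := by positivity
          gcongr
      _ = 80 * x / Real.log L := by ring
  have h6 : 160 * (x : ℝ) / Real.log L = 80 * x / Real.log L + 80 * x / Real.log L := by ring
  rw [h6]
  linarith

end Pool.Agent.Work.MP_d20435_h42
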