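import Pool.Agent.Work.MP_d20435_h42.Count

/-!
# MP_d20435_nt: density zero
-/

set_option autoImplicit false

namespace Pool.Agent.Work.MP_d20435_h42

open Finset Filter Topology

/-- `S` has natural density zero. -/
def DensityZero (S : Set ℕ) : Prop :=
  Tendsto (fun x : ℕ => ((S ∩ Set.Icc 1 x).ncard : ℝ) / x) atTop (𝓝 0)

open Classical in
theorem ncard_eq (S : Set ℕ) (x : ℕ) :
    (S ∩ Set.Icc 1 x).ncard = ((Finset.Icc 1 x).filter fun n => n ∈ S).card := by
  rw [← Set.ncard_coe_finset]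
  congr 1
  ext n
  simp only [Set.mem_inter_iff, Set.mem_Icc, Finset.coe_filter, Finset.mem_Icc, Set.mem_ofPred_eq]
  tauto

open Classical in
theorem dz_iff (S : Set ℕ) : DensityZero S ↔ ∀ ε : ℝ, 0 < ε → ∃ G : ℕ, ∀ g : ℕ, G ≤ g →
    (((Finset.Icc 1 g).filter fun n => n ∈ S).card : ℝ) ≤ ε * g := by
  unfold DensityZero
  rw [Metric.tendsto_atTop]
  constructor
  · intro h ε hε
    obtain ⟨G, hG⟩ := h ε hε
    refine ⟨G + 1, fun g hg => ?_⟩
    have h1 := hG g (by omega)
    rw [Real.dist_0_eq_abs, abs_of_nonneg (by positivity), ncard_eq] at h1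
    have hg0 : (0 : ℝ) < g := by exact_mod_cast (by omega : 0 < g)
    rw [div_lt_iff₀ hg0] at h1
    exact h1.le
  · intro h ε hε
    obtain ⟨G, hG⟩ := h (ε / 2) (by linarith)
    refine ⟨G + 1, fun g hg => ?_⟩
    have h1 := hG g (by omega)
    have hg0 : (0 : ℝ) < g := by exact_mod_cast (by omega : 0 < g)
    rw [Real.dist_0_eq_abs, abs_of_nonneg (by positivity), ncard_eq, div_lt_iff₀ hg0]
    nlinarith

theorem dz_mono {S T : Set ℕ} (h : ∀ n ∈ S, 1 ≤ n → n ∈ T) (hT : DensityZero T) : DensityZero S := by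
  classical
  rw [dz_iff] at hT ⊢
  intro ε hε
  obtain ⟨G, hG⟩ := hT ε hε
  refine ⟨G, fun g hg => le_trans ?_ (hG g hg)⟩
  have : ((Finset.Icc 1 g).filter fun n => n ∈ S) ⊆ ((Finset.Icc 1 g).filter fun n => n ∈ T) := by
    intro n hn
    obtain ⟨h1, h2⟩ := Finset.mem_filter.1 hn
    exact Finset.mem_filter.2 ⟨h1, h n h2 (Finset.mem_Icc.1 h1).1⟩
  exact_mod_cast Finset.card_le_card this

/-- for `S` of density zero almost no starting value has its first term in `S` -/
theorem dz_first {S : Set ℕ} (hS : DensityZero S) : DensityZero {m | trm m 0 ∈ S} := by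
  classical
  rw [dz_iff] at hS ⊢
  intro ε hε
  obtain ⟨G, hG⟩ := hS (ε / 24) (by linarith)
  obtain ⟨X, hX⟩ := (Real.tendsto_log_atTop.comp tendsto_natCast_atTop_atTop).eventually_ge_atTop
    (60 * (G : ℝ) / ε + 1) |>.exists_forall_of_atTop
  refine ⟨max X 2, fun x hx => ?_⟩
  have hx2 : 2 ≤ x := (le_max_right _ _).trans hx
  have hL := hX x ((le_max_left _ _).trans hx)
  simp only [Function.comp_apply] at hL
  have hx0 : (2 : ℝ) ≤ x := by exact_mod_cast hx2
  have hc := count_first S x G (ε / 24) (by linarith) hG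
  have hc' : (((Finset.Icc 1 x).filter fun n => n ∈ {m | trm m 0 ∈ S}).card : ℝ) ≤
      G * (Nat.primeCounting (2 * x + 2) : ℝ) + 2 * (ε / 24) * (2 * x + 2) := by
    simpa [trm, prd] using hc
  refine hc'.trans ?_
  have hpi := pi_le (2 * x + 2) (by omega)
  push_cast at hpi
  have hlx : Real.log x ≤ Real.log (2 * x + 2) := Real.log_le_log (by linarith) (by linarith)
  have hG0 : (0 : ℝ) ≤ G := Nat.cast_nonneg _
  have hq : 0 ≤ 60 * (G : ℝ) / ε := by positivity
  have hl0 : 0 < Real.log (2 * x + 2) := by linarith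
  have h1 : (G : ℝ) * (Nat.primeCounting (2 * x + 2) : ℝ) ≤ ε / 3 * x := by
    have h2 : (G : ℝ) * (Nat.primeCounting (2 * x + 2) : ℝ) ≤ G * (5 * (2 * x + 2) / Real.log (2 * x + 2)) := by
      gcongr
    refine h2.trans ?_
    rw [← mul_div_assoc, div_le_iff₀ hl0]
    have h3 : 60 * (G : ℝ) ≤ ε * Real.log (2 * x + 2) := by
      have h4 : 60 * (G : ℝ) / ε ≤ Real.log (2 * x + 2) := by linarith
      rw [div_le_iff₀ hε] at h4
      linarith
    have h5 : (G : ℝ) * (5 * (2 * x + 2)) ≤ 20 * (G : ℝ) * x := by nlinarith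
    nlinarith
  have h6 : 2 * (ε / 24) * (2 * (x : ℝ) + 2) ≤ ε / 3 * x := by nlinarith
  nlinarith

theorem exists_T (y : ℕ) (δ : ℝ) (hδ : 0 < δ) : ∃ T : Finset ℕ, (∀ p ∈ T, p.Prime ∧ y < p) ∧
    ∏ p ∈ T, (1 - (p : ℝ)⁻¹) ≤ δ := by
  classical
  have hns := not_summable_one_div_on_primes
  rw [not_summable_iff_tendsto_nat_atTop_of_nonneg
    (fun n => Set.indicator_nonneg (fun _ _ => by positivity) n)] at hns
  set f : ℕ → ℝ := Set.indicator {p : ℕ | p.Prime} (fun n : ℕ => (1 : ℝ) / n) with hf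
  obtain ⟨n, hn⟩ := (hns.eventually_ge_atTop (-Real.log δ + ∑ i ∈ Finset.range (y + 1), f i)).exists
  refine ⟨(Finset.range n).filter fun p => p.Prime ∧ y < p, fun p hp => (Finset.mem_filter.1 hp).2, ?_⟩
  set T := (Finset.range n).filter fun p => p.Prime ∧ y < p with hT
  have hf0 : ∀ i, 0 ≤ f i := fun i => Set.indicator_nonneg (fun _ _ => by positivity) i
  have h1 : ∑ i ∈ Finset.range n, f i ≤ ∑ p ∈ T, (p : ℝ)⁻¹ + ∑ i ∈ Finset.range (y + 1), f i := by
    have h2 : ∑ p ∈ T, (p : ℝ)⁻¹ = ∑ p ∈ T, f p := by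
      refine Finset.sum_congr rfl fun p hp => ?_
      have := (Finset.mem_filter.1 hp).2.1
      rw [hf, Set.indicator_of_mem (show p ∈ {p : ℕ | p.Prime} from this), one_div]
    rw [h2]
    have h3 : ∑ i ∈ Finset.range n, f i = ∑ i ∈ (Finset.range n).filter (fun p => p.Prime ∧ y < p), f i +
        ∑ i ∈ (Finset.range n).filter (fun p => ¬ (p.Prime ∧ y < p)), f i :=
      (Finset.sum_filter_add_sum_filter_not _ _ _).symm
    rw [h3]
    refine add_le_add le_rfl ?_
    calc ∑ i ∈ (Finset.range n).filter (fun p => ¬ (p.Prime ∧ y < p)), f i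
        = ∑ i ∈ ((Finset.range n).filter (fun p => ¬ (p.Prime ∧ y < p))).filter (fun p => p < y + 1), f i := by
          symm
          refine Finset.sum_filter_of_ne ?_
          intro i hi hne
          by_contra hlt
          have h4 : ¬ (i.Prime ∧ y < i) := (Finset.mem_filter.1 hi).2
          have h5 : ¬ i.Prime := fun h => h4 ⟨h, by omega⟩
          exact hne (Set.indicator_of_notMem (show i ∉ {p : ℕ | p.Prime} from h5) _)
      _ ≤ ∑ i ∈ Finset.range (y + 1), f i := by
          refine Finset.sum_le_sum_of_subset_of_nonneg ?_ fun i _ _ => hf0 i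
          intro i hi
          exact Finset.mem_range.2 (Finset.mem_filter.1 hi).2
  have h6 : -Real.log δ ≤ ∑ p ∈ T, (p : ℝ)⁻¹ := by linarith
  calc ∏ p ∈ T, (1 - (p : ℝ)⁻¹) ≤ ∏ p ∈ T, Real.exp (-(p : ℝ)⁻¹) := by
        refine Finset.prod_le_prod ?_ fun p _ => Real.one_sub_le_exp_neg _
        intro p hp
        have h7 := (Finset.mem_filter.1 hp).2.1.one_lt
        have h8 : (1 : ℝ) ≤ p := by exact_mod_cast h7.le
        have h9 : (p : ℝ)⁻¹ ≤ 1 := inv_le_one_of_one_le₀ h8
        linarith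
    _ = Real.exp (-∑ p ∈ T, (p : ℝ)⁻¹) := by rw [← Real.exp_sum, Finset.sum_neg_distrib]
    _ ≤ Real.exp (Real.log δ) := Real.exp_le_exp.2 (by linarith)
    _ = δ := Real.exp_log hδ

open Classical in
theorem omega_aux (K : ℕ) : ∀ ε : ℝ, 0 < ε → ∃ y X : ℕ, ∀ x : ℕ, X ≤ x →
    (((Finset.Icc 1 x).filter fun n => (n.primeFactors ∩ Finset.range (y + 1)).card < K).card : ℝ) ≤ ε * x := by
  induction K with
  | zero =>
    intro ε hε
    refine ⟨0, 0, fun x _ => ?_⟩
    simp only [Nat.not_lt_zero, Finset.filter_false, Finset.card_empty, Nat.cast_zero]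
    positivity
  | succ K ih =>
    intro ε hε
    obtain ⟨y, X, hX⟩ := ih (ε / 2) (by linarith)
    obtain ⟨T, hT, hTd⟩ := exists_T y (ε / 4) (by linarith)
    set N := ∏ p ∈ T, p with hN
    have hN0 : 0 < N := Finset.prod_pos fun p hp => (hT p hp).1.pos
    have hpf : N.primeFactors = T := Nat.primeFactors_prod fun p hp => (hT p hp).1
    have hphi : (Nat.totient N : ℝ) ≤ ε / 4 * N := by
      have h1 : (Nat.totient N : ℝ) = N * ∏ p ∈ T, (1 - (p : ℝ)⁻¹) := by
        have h2 := Nat.totient_eq_mul_prod_factors N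
        rw [hpf] at h2
        have h3 : ((Nat.totient N : ℚ) : ℝ) = ((N * ∏ p ∈ T, (1 - (p : ℚ)⁻¹) : ℚ) : ℝ) := by rw [h2]
        push_cast at h3
        exact h3
      rw [h1, mul_comm]
      gcongr
    refine ⟨max y (T.sup id), max X N, fun x hx => ?_⟩
    have hxX : X ≤ x := (le_max_left _ _).trans hx
    have hxN : N ≤ x := (le_max_right _ _).trans hx
    have hsub : ((Finset.Icc 1 x).filter fun n =>
        (n.primeFactors ∩ Finset.range (max y (T.sup id) + 1)).card < K + 1) ⊆
        ((Finset.Icc 1 x).filter fun n => (n.primeFactors ∩ Finset.range (y + 1)).card < K) ∪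
        ((Finset.Ico 1 (1 + x)).filter fun n => N.Coprime n) := by
      intro n hn
      obtain ⟨hn1, hn2⟩ := Finset.mem_filter.1 hn
      rw [Finset.mem_union]
      by_contra hcon
      push Not at hcon
      obtain ⟨hc1, hc2⟩ := hcon
      have hn0 : 1 ≤ n := (Finset.mem_Icc.1 hn1).1
      have h1 : K ≤ (n.primeFactors ∩ Finset.range (y + 1)).card := by
        by_contra hlt
        exact hc1 (Finset.mem_filter.2 ⟨hn1, by omega⟩)
      have h2 : ¬ N.Coprime n := by
        intro hco
        refine hc2 (Finset.mem_filter.2 ⟨?_, hco⟩)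
        rw [Finset.mem_Icc] at hn1
        rw [Finset.mem_Ico]
        omega
      obtain ⟨p, hp, hpN, hpn⟩ := Nat.Prime.not_coprime_iff_dvd.1 h2
      have hpT : p ∈ T := by
        rw [← hpf]
        exact Nat.mem_primeFactors.2 ⟨hp, hpN, hN0.ne'⟩
      have h3 : insert p (n.primeFactors ∩ Finset.range (y + 1)) ⊆
          n.primeFactors ∩ Finset.range (max y (T.sup id) + 1) := by
        intro r hr
        rcases Finset.mem_insert.1 hr with rfl | hr
        · refine Finset.mem_inter.2 ⟨Nat.mem_primeFactors.2 ⟨hp, hpn, by omega⟩, Finset.mem_range.2 ?_⟩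
          have h4 : r ≤ T.sup id := Finset.le_sup (f := id) hpT
          have h5 : r ≤ max y (T.sup id) := h4.trans (le_max_right _ _)
          omega
        · obtain ⟨h4, h5⟩ := Finset.mem_inter.1 hr
          refine Finset.mem_inter.2 ⟨h4, Finset.mem_range.2 ?_⟩
          have h6 := Finset.mem_range.1 h5
          have h7 : y ≤ max y (T.sup id) := le_max_left _ _
          omega
      have h8 := Finset.card_le_card h3
      rw [Finset.card_insert_of_notMem] at h8
      · omega
      · intro hmem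
        have h9 := Finset.mem_range.1 (Finset.mem_inter.1 hmem).2
        have h10 := (hT p hpT).2
        omega
    have h1 : (((Finset.Icc 1 x).filter fun n =>
        (n.primeFactors ∩ Finset.range (max y (T.sup id) + 1)).card < K + 1).card : ℝ) ≤
        (((Finset.Icc 1 x).filter fun n => (n.primeFactors ∩ Finset.range (y + 1)).card < K).card : ℝ) +
        (((Finset.Ico 1 (1 + x)).filter fun n => N.Coprime n).card : ℝ) := by
      exact_mod_cast (Finset.card_le_card hsub).trans (Finset.card_union_le _ _)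
    have h2 : (((Finset.Ico 1 (1 + x)).filter fun n => N.Coprime n).card : ℝ) ≤ ε / 2 * x := by
      have h3 := Nat.Ico_filter_coprime_le 1 x hN0.ne'
      have h4 : (((Finset.Ico 1 (1 + x)).filter fun n => N.Coprime n).card : ℝ) ≤
          (Nat.totient N : ℝ) * (((x / N : ℕ) : ℝ) + 1) := by exact_mod_cast h3
      have h5 : ((x / N : ℕ) : ℝ) ≤ (x : ℝ) / N := Nat.cast_div_le
      have hN0' : (0 : ℝ) < N := by exact_mod_cast hN0
      have hxN' : (N : ℝ) ≤ x := by exact_mod_cast hxN
      calc (((Finset.Ico 1 (1 + x)).filter fun n => N.Coprime n).card : ℝ)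
          ≤ (Nat.totient N : ℝ) * (((x / N : ℕ) : ℝ) + 1) := h4
        _ ≤ (ε / 4 * N) * ((x : ℝ) / N + 1) := by gcongr
        _ = ε / 4 * (x + N) := by field_simp
        _ ≤ ε / 4 * (x + x) := by gcongr
        _ = ε / 2 * x := by ring
    have h3 := hX x hxX
    linarith

theorem dz_omega (K : ℕ) : DensityZero {n | n.primeFactors.card < K} := by
  classical
  obtain ⟨S, hS⟩ : ∃ S : Set ℕ, S = {n | n.primeFactors.card < K} := ⟨_, rfl⟩
  rw [← hS, dz_iff]
  intro ε hε
  obtain ⟨y, X, hX⟩ := omega_aux K ε hε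
  refine ⟨X, fun x hx => le_trans ?_ (hX x hx)⟩
  have : ((Finset.Icc 1 x).filter fun n => n ∈ S) ⊆
      ((Finset.Icc 1 x).filter fun n => (n.primeFactors ∩ Finset.range (y + 1)).card < K) := by
    intro n hn
    obtain ⟨h1, h2⟩ := Finset.mem_filter.1 hn
    rw [hS] at h2
    exact Finset.mem_filter.2 ⟨h1, lt_of_le_of_lt (Finset.card_le_card Finset.inter_subset_left) h2⟩
  exact_mod_cast Finset.card_le_card this

theorem dz_missing (K : ℕ) : DensityZero {m | (missing m).encard < K} := by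
  refine dz_mono ?_ (dz_first (dz_omega (max K 2)))
  intro m hm hm1
  change (trm m 0).primeFactors.card < max K 2
  by_contra hge
  push Not at hge
  have hnp : ¬ (trm m 0).Prime := by
    intro hp
    rw [hp.primeFactors, Finset.card_singleton] at hge
    have := le_max_right K 2
    omega
  have h1 : ((trm m 0).primeFactors : Set ℕ) ⊆ missing m := by
    intro p hp
    have h2 := Nat.mem_primeFactors.1 (Finset.mem_coe.1 hp)
    exact missing_of_dvd hm1 h2.1 h2.2.1 hnp
  have h2 := Set.encard_le_encard h1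
  rw [Set.encard_coe_eq_coe_finsetCard] at h2
  have h3 : (K : ℕ∞) ≤ ((trm m 0).primeFactors.card : ℕ∞) := by
    exact_mod_cast (le_max_left K 2).trans hge
  exact absurd hm (not_lt.2 (h3.trans h2))

theorem few_allOccur (x : ℕ) (hx : 16 ≤ x) :
    (({m | AllOccur m} ∩ Set.Icc 1 x).ncard : ℝ) ≤ 160 * x / Real.log (Real.log x) := by
  classical
  rw [ncard_eq]
  refine le_trans ?_ (count_prime x hx)
  have : ((Finset.Icc 1 x).filter fun n => n ∈ {m | AllOccur m}) ⊆
      ((Finset.Icc 1 x).filter fun m => (nextP m - m).Prime) := by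
    intro m hm
    obtain ⟨h1, h2⟩ := Finset.mem_filter.1 hm
    have h3 := ((allOccur_iff (Finset.mem_Icc.1 h1).1).1 h2).1 0
    exact Finset.mem_filter.2 ⟨h1, h3⟩
  exact_mod_cast Finset.card_le_card this

end Pool.Agent.Work.MP_d20435_h42
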