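import Pool.Agent.Work.MP_d20435_h42.Dens
import Pool.Agent.Work.PNT70.PNT

/-!
# MP_d20435_nt: the first term is distributed like a random integer
-/

set_option autoImplicit false

namespace Pool.Agent.Work.MP_d20435_h42

open Finset Filter Topology

/-- `S` has natural density `δ`. -/
def HasDensity (S : Set ℕ) (δ : ℝ) : Prop :=
  Tendsto (fun x : ℕ => ((S ∩ Set.Icc 1 x).ncard : ℝ) / x) atTop (𝓝 δ)

open Classical in
/-- the upper density of `S` is at most `δ` -/
def UD (S : Set ℕ) (δ : ℝ) : Prop := ∀ ε : ℝ, 0 < ε → ∃ G : ℕ, ∀ g : ℕ, G ≤ g →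
    (((Finset.Icc 1 g).filter fun n => n ∈ S).card : ℝ) ≤ (δ + ε) * g

open Classical in
theorem card_compl (S T : Set ℕ) (hT : T = Sᶜ) (x : ℕ) : ((Finset.Icc 1 x).filter fun n => n ∈ S).card +
    ((Finset.Icc 1 x).filter fun n => n ∈ T).card = x := by
  have h : ((Finset.Icc 1 x).filter fun n => n ∈ S) ∪ ((Finset.Icc 1 x).filter fun n => n ∈ T) =
      Finset.Icc 1 x := by
    ext n
    simp only [Finset.mem_union, Finset.mem_filter, hT, Set.mem_compl_iff]
    tauto
  have hd : Disjoint ((Finset.Icc 1 x).filter fun n => n ∈ S) ((Finset.Icc 1 x).filter fun n => n ∈ T) := by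
    rw [Finset.disjoint_left]
    intro n hn hn'
    have h1 := (Finset.mem_filter.1 hn).2
    have h2 := (Finset.mem_filter.1 hn').2
    rw [hT] at h2
    exact h2 h1
  rw [← Finset.card_union_of_disjoint hd, h, Nat.card_Icc, Nat.add_sub_cancel]

theorem hasDensity_iff (S : Set ℕ) (δ : ℝ) : HasDensity S δ ↔ UD S δ ∧ UD Sᶜ (1 - δ) := by
  classical
  obtain ⟨T, hT⟩ : ∃ T : Set ℕ, T = Sᶜ := ⟨_, rfl⟩
  rw [← hT]
  unfold HasDensity
  rw [Metric.tendsto_atTop]
  constructor
  · intro h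
    refine ⟨fun ε hε => ?_, fun ε hε => ?_⟩
    · obtain ⟨G, hG⟩ := h ε hε
      refine ⟨G + 1, fun g hg => ?_⟩
      have h1 := hG g (by omega)
      have hg0 : (0 : ℝ) < g := by exact_mod_cast (by omega : 0 < g)
      rw [Real.dist_eq, abs_lt, ncard_eq] at h1
      have h2 := h1.2
      rw [sub_lt_iff_lt_add, div_lt_iff₀ hg0] at h2
      linarith
    · obtain ⟨G, hG⟩ := h ε hε
      refine ⟨G + 1, fun g hg => ?_⟩
      have h1 := hG g (by omega)
      have hg0 : (0 : ℝ) < g := by exact_mod_cast (by omega : 0 < g)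
      rw [Real.dist_eq, abs_lt, ncard_eq] at h1
      have h2 := h1.1
      rw [lt_sub_iff_add_lt, lt_div_iff₀ hg0] at h2
      have h3 : ((((Finset.Icc 1 g).filter fun n => n ∈ S).card : ℝ)) +
          (((Finset.Icc 1 g).filter fun n => n ∈ T).card : ℝ) = g := by
        exact_mod_cast card_compl S T hT g
      nlinarith
  · rintro ⟨h1, h2⟩ ε hε
    obtain ⟨G, hG⟩ := h1 (ε / 2) (by linarith)
    obtain ⟨G', hG'⟩ := h2 (ε / 2) (by linarith)
    refine ⟨max G G' + 1, fun g hg => ?_⟩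
    have hgG : G ≤ g := by
      have := le_max_left G G'
      omega
    have hgG' : G' ≤ g := by
      have := le_max_right G G'
      omega
    have hg0 : (0 : ℝ) < g := by exact_mod_cast (by omega : 0 < g)
    have h3 := hG g hgG
    have h4 := hG' g hgG'
    have h5 : ((((Finset.Icc 1 g).filter fun n => n ∈ S).card : ℝ)) +
        (((Finset.Icc 1 g).filter fun n => n ∈ T).card : ℝ) = g := by
      exact_mod_cast card_compl S T hT g
    rw [Real.dist_eq, abs_lt, ncard_eq]
    constructor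
    · rw [lt_sub_iff_add_lt, lt_div_iff₀ hg0]
      nlinarith
    · rw [sub_lt_iff_lt_add, div_lt_iff₀ hg0]
      nlinarith

/-- short gaps -/
theorem nextP_short {ε : ℝ} (hε : 0 < ε) (hε4 : ε ≤ 1 / 4) :
    ∃ M : ℕ, ∀ m : ℕ, M ≤ m → (nextP m : ℝ) ≤ (1 + 2 * ε) * m := by
  have h := Pool.Agent.Work.PNT70.exists_prime_short hε
  obtain ⟨X, hX⟩ := h.exists_forall_of_atTop
  refine ⟨max ⌈X⌉₊ ⌈4 / ε⌉₊ + 1, fun m hm => ?_⟩
  have h1 : ⌈X⌉₊ ≤ m := by
    have := le_max_left ⌈X⌉₊ ⌈4 / ε⌉₊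
    omega
  have h2 : ⌈4 / ε⌉₊ ≤ m := by
    have := le_max_right ⌈X⌉₊ ⌈4 / ε⌉₊
    omega
  have h1' : X ≤ m := (Nat.le_ceil X).trans (by exact_mod_cast h1)
  have h2' : 4 / ε ≤ m := (Nat.le_ceil _).trans (by exact_mod_cast h2)
  have hm0 : (0 : ℝ) ≤ m := Nat.cast_nonneg _
  obtain ⟨p, hp, hp1, hp2⟩ := hX ((1 + 2 * ε) * m) (by nlinarith)
  refine le_trans ?_ hp2
  have h3 : (m : ℝ) + 1 < p := by
    refine lt_of_le_of_lt ?_ hp1
    rw [div_le_iff₀ hε] at h2'
    nlinarith
  have h4 : m + 1 < p := by exact_mod_cast h3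
  exact_mod_cast nextP_min hp h4

open Classical in
/-- the starting values in `[1, x]` above the last prime -/
theorem last_gap {ε : ℝ} (hε : 0 < ε) (hε4 : ε ≤ 1 / 4) :
    ∃ X : ℕ, ∀ x : ℕ, X ≤ x →
      (((Finset.Icc 1 x).filter fun m => x + 1 < nextP m).card : ℝ) ≤ 2 * ε * x + 1 := by
  obtain ⟨M, hM⟩ := nextP_short hε hε4
  refine ⟨2 * M + 2, fun x hx => ?_⟩
  have hx0 : (0 : ℝ) ≤ x := Nat.cast_nonneg _
  have hsub : ((Finset.Icc 1 x).filter fun m => x + 1 < nextP m) ⊆ Finset.Ioc (x - ⌊2 * ε * x⌋₊ - 1) x := by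
    intro m hm
    obtain ⟨h1, h2⟩ := Finset.mem_filter.1 hm
    rw [Finset.mem_Icc] at h1
    have hmM : M ≤ m := by
      by_contra hlt
      have := nextP_le m
      omega
    have h3 := hM m hmM
    have h4 : ((x : ℝ) + 1) < nextP m := by exact_mod_cast h2
    have hm0 : (0 : ℝ) ≤ m := Nat.cast_nonneg _
    have hmx : (m : ℝ) ≤ x := by exact_mod_cast h1.2
    have h5 : (x : ℝ) < m + 2 * ε * x := by nlinarith
    have h6 : (x : ℝ) < m + (⌊2 * ε * x⌋₊ + 1) := by
      have := Nat.lt_floor_add_one (2 * ε * (x : ℝ))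
      linarith
    have h7 : x < m + (⌊2 * ε * x⌋₊ + 1) := by exact_mod_cast h6
    rw [Finset.mem_Ioc]
    omega
  have h1 := Finset.card_le_card hsub
  rw [Nat.card_Ioc] at h1
  have h2 : x - (x - ⌊2 * ε * x⌋₊ - 1) ≤ ⌊2 * ε * x⌋₊ + 1 := by omega
  have h3 : ((((Finset.Icc 1 x).filter fun m => x + 1 < nextP m).card : ℕ) : ℝ) ≤
      ((⌊2 * ε * x⌋₊ + 1 : ℕ) : ℝ) := by exact_mod_cast h1.trans h2
  refine h3.trans ?_
  push_cast
  have := Nat.floor_le (show 0 ≤ 2 * ε * (x : ℝ) by positivity)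
  linarith

open Classical in
theorem count_exact (S : Set ℕ) (x G : ℕ) (δ : ℝ) (hδ : 0 ≤ δ)
    (hS : ∀ g : ℕ, G ≤ g → (((Finset.Icc 1 g).filter fun n => n ∈ S).card : ℝ) ≤ δ * g) :
    (((Finset.Icc 1 x).filter fun m => nextP m - m ∈ S).card : ℝ) ≤
      (G + δ) * (Nat.primeCounting (2 * x + 2) : ℝ) + δ * x +
        (((Finset.Icc 1 x).filter fun m => x + 1 < nextP m).card : ℝ) := by
  set B := (Finset.Icc 1 x).filter fun m => nextP m - m ∈ S with hB
  set A := B.filter fun m => nextP m ≤ x + 1 with hA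
  have hBA : B.card ≤ A.card + ((Finset.Icc 1 x).filter fun m => x + 1 < nextP m).card := by
    have h1 : B ⊆ A ∪ ((Finset.Icc 1 x).filter fun m => x + 1 < nextP m) := by
      intro m hm
      rw [Finset.mem_union]
      rcases Nat.lt_or_ge (x + 1) (nextP m) with h | h
      · exact Or.inr (Finset.mem_filter.2 ⟨(Finset.mem_filter.1 hm).1, h⟩)
      · exact Or.inl (Finset.mem_filter.2 ⟨hm, h⟩)
    exact (Finset.card_le_card h1).trans (Finset.card_union_le _ _)
  set Q := A.image nextP with hQ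
  have hQle : ∀ q ∈ Q, q.Prime ∧ q ≤ x + 1 := by
    intro q hq
    obtain ⟨m, hm, rfl⟩ := Finset.mem_image.1 hq
    exact ⟨(nextP_spec m).1, (Finset.mem_filter.1 hm).2⟩
  let F : ℕ → Finset ℕ := fun q => (Finset.range x).filter fun m => nextP m = q
  have hT : ∀ q ∈ Q, ((A.filter fun m => nextP m = q).card : ℝ) ≤ (G + δ) + δ * (F q).card := by
    intro q hq
    set T := A.filter fun m => nextP m = q with hTd
    have hkey : ∀ m ∈ T, q - m ≤ (F q).card + 1 := by
      intro m hm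
      obtain ⟨hmA, hmq⟩ := Finset.mem_filter.1 hm
      have h1 : Finset.Icc m (q - 2) ⊆ F q := by
        intro m' hm'
        rw [Finset.mem_Icc] at hm'
        have h2 := (nextP_spec m).2
        rw [hmq] at h2
        have h3 := (hQle q hq).2
        refine Finset.mem_filter.2 ⟨Finset.mem_range.2 (by omega), nextP_eq hmq hm'.1 (by omega)⟩
      have h4 := Finset.card_le_card h1
      rw [Nat.card_Icc] at h4
      omega
    have hinj : T.card ≤ ((Finset.Icc 1 ((F q).card + 1)).filter fun n => n ∈ S).card := by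
      refine Finset.card_le_card_of_injOn (fun m => q - m) ?_ ?_
      · intro m hm
        have hm' := Finset.mem_coe.1 hm
        obtain ⟨hmA, hmq⟩ := Finset.mem_filter.1 hm'
        have h2 := (nextP_spec m).2
        rw [hmq] at h2
        have h5 := (Finset.mem_filter.1 (Finset.mem_filter.1 hmA).1).2
        rw [hmq] at h5
        exact Finset.mem_coe.2 (Finset.mem_filter.2 ⟨Finset.mem_Icc.2 ⟨by simp only; omega, hkey m hm'⟩, h5⟩)
      · intro m hm m' hm' he
        have h1 := (nextP_spec m).2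
        rw [(Finset.mem_filter.1 (Finset.mem_coe.1 hm)).2] at h1
        have h2 := (nextP_spec m').2
        rw [(Finset.mem_filter.1 (Finset.mem_coe.1 hm')).2] at h2
        simp only at he
        omega
    have hc0 : (0 : ℝ) ≤ ((F q).card : ℝ) := Nat.cast_nonneg _
    have hG0 : (0 : ℝ) ≤ G := Nat.cast_nonneg _
    rcases Nat.lt_or_ge ((F q).card + 1) G with hlt | hge
    · have h1 : T.card ≤ G := by
        refine hinj.trans ((Finset.card_filter_le _ _).trans ?_)
        rw [Nat.card_Icc]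
        omega
      have h2 : (T.card : ℝ) ≤ G := by exact_mod_cast h1
      have h3 : 0 ≤ δ * ((F q).card : ℝ) := by positivity
      linarith
    · have h1 := hS _ hge
      have h2 : (T.card : ℝ) ≤ (((Finset.Icc 1 ((F q).card + 1)).filter fun n => n ∈ S).card : ℝ) := by
        exact_mod_cast hinj
      push_cast at h1
      linarith
  have hcA : (A.card : ℝ) = ∑ q ∈ Q, ((A.filter fun m => nextP m = q).card : ℝ) := by
    have := Finset.card_eq_sum_card_fiberwise (f := nextP) (s := A) (t := Q)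
      (fun m hm => Finset.mem_coe.2 (Finset.mem_image_of_mem _ (Finset.mem_coe.1 hm)))
    exact_mod_cast this
  have hF : ∑ q ∈ Q, (F q).card ≤ x := by
    have h1 : ∑ q ∈ Q, (F q).card = (Q.biUnion F).card := by
      rw [Finset.card_biUnion]
      intro q _ q' _ hne
      rw [Function.onFun, Finset.disjoint_left]
      intro m hm hm'
      exact hne ((Finset.mem_filter.1 hm).2.symm.trans (Finset.mem_filter.1 hm').2)
    rw [h1]
    have h2 : Q.biUnion F ⊆ Finset.range x := by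
      intro m hm
      obtain ⟨q, _, hq⟩ := Finset.mem_biUnion.1 hm
      exact (Finset.mem_filter.1 hq).1
    have := Finset.card_le_card h2
    rwa [Finset.card_range] at this
  have hQc : Q.card ≤ Nat.primeCounting (2 * x + 2) := by
    rw [Nat.primeCounting, Nat.primeCounting', Nat.count_eq_card_filter_range]
    refine Finset.card_le_card fun q hq => ?_
    obtain ⟨h1, h2⟩ := hQle q hq
    exact Finset.mem_filter.2 ⟨Finset.mem_range.2 (by omega), h1⟩
  have hAle : (A.card : ℝ) ≤ (G + δ) * (Nat.primeCounting (2 * x + 2) : ℝ) + δ * x := by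
    rw [hcA]
    calc ∑ q ∈ Q, ((A.filter fun m => nextP m = q).card : ℝ)
        ≤ ∑ q ∈ Q, (((G : ℝ) + δ) + δ * (F q).card) := Finset.sum_le_sum hT
      _ = Q.card * ((G : ℝ) + δ) + δ * ((∑ q ∈ Q, (F q).card : ℕ) : ℝ) := by
          rw [Finset.sum_add_distrib, Finset.sum_const, nsmul_eq_mul, ← Finset.mul_sum]
          push_cast
          rfl
      _ ≤ (Nat.primeCounting (2 * x + 2) : ℝ) * (G + δ) + δ * x := by
          have h1 : ((∑ q ∈ Q, (F q).card : ℕ) : ℝ) ≤ x := by exact_mod_cast hF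
          have h2 : (Q.card : ℝ) ≤ (Nat.primeCounting (2 * x + 2) : ℝ) := by exact_mod_cast hQc
          have h3 : (0 : ℝ) ≤ G := Nat.cast_nonneg _
          gcongr
      _ = _ := by ring
  have hBA' : (B.card : ℝ) ≤ A.card + (((Finset.Icc 1 x).filter fun m => x + 1 < nextP m).card : ℝ) := by
    exact_mod_cast hBA
  linarith

/-- the first term does not increase the upper density -/
theorem ud_first {S : Set ℕ} {δ : ℝ} (hδ : 0 ≤ δ) (hS : UD S δ) : UD {m | trm m 0 ∈ S} δ := by
  classical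
  intro ε hε
  set η := min (ε / 8) (1 / 4) with hη
  have hη0 : 0 < η := lt_min (by linarith) (by norm_num)
  have hη1 : η ≤ ε / 8 := min_le_left _ _
  have hη2 : η ≤ 1 / 4 := min_le_right _ _
  obtain ⟨G, hG⟩ := hS (ε / 4) (by linarith)
  obtain ⟨X1, hX1⟩ := last_gap hη0 hη2
  obtain ⟨X, hX⟩ := (Real.tendsto_log_atTop.comp tendsto_natCast_atTop_atTop).eventually_ge_atTop
    (80 * (G + (δ + ε / 4)) / ε + 1) |>.exists_forall_of_atTop
  refine ⟨max (max X X1) (⌈4 / ε⌉₊ + 2), fun x hx => ?_⟩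
  have hxX : X ≤ x := ((le_max_left _ _).trans (le_max_left _ _)).trans hx
  have hxX1 : X1 ≤ x := ((le_max_right _ _).trans (le_max_left _ _)).trans hx
  have hx4 : ⌈4 / ε⌉₊ + 2 ≤ x := (le_max_right _ _).trans hx
  have hx2 : 2 ≤ x := by omega
  have hx4' : 4 / ε ≤ x := (Nat.le_ceil _).trans (by exact_mod_cast (by omega : ⌈4 / ε⌉₊ ≤ x))
  have hL := hX x hxX
  simp only [Function.comp_apply] at hL
  have hx0 : (2 : ℝ) ≤ x := by exact_mod_cast hx2
  have hc := count_exact S x G (δ + ε / 4) (by linarith) hG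
  have hc' : (((Finset.Icc 1 x).filter fun n => n ∈ {m | trm m 0 ∈ S}).card : ℝ) ≤
      (G + (δ + ε / 4)) * (Nat.primeCounting (2 * x + 2) : ℝ) + (δ + ε / 4) * x +
        (((Finset.Icc 1 x).filter fun m => x + 1 < nextP m).card : ℝ) := by
    simpa [trm, prd] using hc
  refine hc'.trans ?_
  have hlast := hX1 x hxX1
  have hpi := pi_le (2 * x + 2) (by omega)
  push_cast at hpi
  have hlx : Real.log x ≤ Real.log (2 * x + 2) := Real.log_le_log (by linarith) (by linarith)
  have hG0 : (0 : ℝ) ≤ G + (δ + ε / 4) := by positivity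
  have hq : 0 ≤ 80 * (G + (δ + ε / 4)) / ε := by positivity
  have hl0 : 0 < Real.log (2 * x + 2) := by linarith
  have h1 : (G + (δ + ε / 4)) * (Nat.primeCounting (2 * x + 2) : ℝ) ≤ ε / 4 * x := by
    have h2 : (G + (δ + ε / 4)) * (Nat.primeCounting (2 * x + 2) : ℝ) ≤
        (G + (δ + ε / 4)) * (5 * (2 * x + 2) / Real.log (2 * x + 2)) := by
      gcongr
    refine h2.trans ?_
    rw [← mul_div_assoc, div_le_iff₀ hl0]
    have h3 : 80 * (G + (δ + ε / 4)) ≤ ε * Real.log (2 * x + 2) := by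
      have h4 : 80 * (G + (δ + ε / 4)) / ε ≤ Real.log (2 * x + 2) := by linarith
      rw [div_le_iff₀ hε] at h4
      linarith
    have h5 : (G + (δ + ε / 4)) * (5 * (2 * x + 2)) ≤ 20 * (G + (δ + ε / 4)) * x := by nlinarith
    nlinarith
  have h6 : 2 * η * x + 1 ≤ ε / 2 * x := by
    rw [div_le_iff₀ hε] at hx4'
    nlinarith
  nlinarith

/-- the first term has the distribution of a random integer -/
theorem density_first {S : Set ℕ} {δ : ℝ} (hS : HasDensity S δ) : HasDensity {m | trm m 0 ∈ S} δ := by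
  have h01 : 0 ≤ δ ∧ δ ≤ 1 := by
    refine ⟨ge_of_tendsto' hS fun x => by positivity, le_of_tendsto' hS fun x => ?_⟩
    rcases Nat.eq_zero_or_pos x with rfl | hx
    · simp
    · have hx0 : (0 : ℝ) < x := by exact_mod_cast hx
      rw [div_le_one hx0]
      have h1 : (S ∩ Set.Icc 1 x).ncard ≤ (Set.Icc 1 x).ncard :=
        Set.ncard_le_ncard Set.inter_subset_right (Set.finite_Icc 1 x)
      rw [show (Set.Icc 1 x : Set ℕ) = ((Finset.Icc 1 x : Finset ℕ) : Set ℕ) by simp,
        Set.ncard_coe_finset, Nat.card_Icc, Nat.add_sub_cancel] at h1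
      rw [show (Set.Icc 1 x : Set ℕ) = ((Finset.Icc 1 x : Finset ℕ) : Set ℕ) by simp]
      exact_mod_cast h1
  rw [hasDensity_iff] at hS ⊢
  exact ⟨ud_first h01.1 hS.1, ud_first (by linarith) hS.2⟩

theorem ud_one (S : Set ℕ) : UD S 1 := by
  classical
  intro ε hε
  refine ⟨0, fun g _ => ?_⟩
  have h1 := Finset.card_filter_le (Finset.Icc 1 g) (fun n => n ∈ S)
  rw [Nat.card_Icc, Nat.add_sub_cancel] at h1
  have h2 : (0 : ℝ) ≤ g := Nat.cast_nonneg _
  have h3 : (((Finset.Icc 1 g).filter fun n => n ∈ S).card : ℝ) ≤ g := by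
    exact_mod_cast h1
  nlinarith

/-- almost all starting values miss at least `K` primes -/
theorem density_missing (K : ℕ) : HasDensity {m | (K : ℕ∞) ≤ (missing m).encard} 1 := by
  rw [hasDensity_iff]
  refine ⟨ud_one _, ?_⟩
  rw [sub_self]
  have h2 : {m | (K : ℕ∞) ≤ (missing m).encard}ᶜ = {m | (missing m).encard < K} := by
    ext m
    simp
  rw [h2]
  intro ε hε
  obtain ⟨G, hG⟩ := (dz_iff _).1 (dz_missing K) ε hε
  exact ⟨G, fun g hg => by rw [zero_add]; exact hG g hg⟩

end Pool.Agent.Work.MP_d20435_h42
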