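import Mathlib

/-!
# MP_d20435_nt: the sequence with an arbitrary starting value, basic facts
-/

set_option autoImplicit false

namespace Pool.Agent.Work.MP_d20435_h42

/-- The least prime `q` with `q > P + 1`. -/
noncomputable def nextP (P : ℕ) : ℕ := sInf {q : ℕ | q.Prime ∧ P + 1 < q}

/-- The products `P_0 = m`, `P_(n+1) = P_n * (nextP P_n - P_n)`. -/
noncomputable def prd (m : ℕ) : ℕ → ℕ
  | 0 => m
  | n + 1 => prd m n * (nextP (prd m n) - prd m n)

/-- The terms: `trm m n` is the distance from `P_n` to the least prime above `P_n + 1`. -/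
noncomputable def trm (m n : ℕ) : ℕ := nextP (prd m n) - prd m n

/-- Every prime which does not divide the starting value is a term. -/
def AllOccur (m : ℕ) : Prop := ∀ p : ℕ, p.Prime → ¬ p ∣ m → ∃ n, trm m n = p

/-- The least prime which does not divide `k`. -/
noncomputable def leastNew (k : ℕ) : ℕ := sInf {p : ℕ | p.Prime ∧ ¬ p ∣ k}

/-- The primes which neither divide the starting value nor occur as terms. -/
def missing (m : ℕ) : Set ℕ := {p | p.Prime ∧ ¬ p ∣ m ∧ ∀ n, trm m n ≠ p}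

theorem nextP_spec (P : ℕ) : (nextP P).Prime ∧ P + 1 < nextP P := by
  have h : {q : ℕ | q.Prime ∧ P + 1 < q}.Nonempty := by
    obtain ⟨p, hp, hpr⟩ := Nat.exists_infinite_primes (P + 2)
    exact ⟨p, hpr, by omega⟩
  exact Nat.sInf_mem h

theorem nextP_min {P q : ℕ} (hq : q.Prime) (h : P + 1 < q) : nextP P ≤ q :=
  Nat.sInf_le (show q ∈ {q : ℕ | q.Prime ∧ P + 1 < q} from ⟨hq, h⟩)

theorem nextP_le (P : ℕ) : nextP P ≤ 2 * P + 2 := by
  obtain ⟨p, hp, h1, h2⟩ := Nat.exists_prime_lt_and_le_two_mul (P + 1) (by omega)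
  exact (nextP_min hp h1).trans (by omega)

theorem nextP_eq {m m' q : ℕ} (h : nextP m = q) (h1 : m ≤ m') (h2 : m' + 1 < q) : nextP m' = q := by
  have hq := (nextP_spec m).1
  rw [h] at hq
  refine le_antisymm (nextP_min hq h2) ?_
  rw [← h]
  have h3 := nextP_spec m'
  exact nextP_min h3.1 (by omega)

theorem two_le_trm (m n : ℕ) : 2 ≤ trm m n := by
  have := (nextP_spec (prd m n)).2
  unfold trm
  omega

theorem prd_succ (m n : ℕ) : prd m (n + 1) = prd m n * trm m n := rfl

theorem prd_add_trm (m n : ℕ) : prd m n + trm m n = nextP (prd m n) := by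
  have := (nextP_spec (prd m n)).2
  unfold trm
  omega

theorem prd_pos {m : ℕ} (hm : 1 ≤ m) (n : ℕ) : 1 ≤ prd m n := by
  induction n with
  | zero => exact hm
  | succ n ih =>
    rw [prd_succ]
    exact Nat.mul_pos ih (by have := two_le_trm m n; omega)

theorem coprime_trm {m : ℕ} (hm : 1 ≤ m) (n : ℕ) : (trm m n).Coprime (prd m n) := by
  refine Nat.coprime_of_dvd' ?_
  intro p hp h1 h2
  have h3 : p ∣ nextP (prd m n) := by
    rw [← prd_add_trm]
    exact Dvd.dvd.add h2 h1 |>.trans (by simp) |> fun h => h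
  have h4 := (Nat.prime_dvd_prime_iff_eq hp (nextP_spec (prd m n)).1).1 h3
  have h5 := Nat.le_of_dvd (prd_pos hm n) h2
  have h6 := (nextP_spec (prd m n)).2
  omega

theorem prd_dvd {m : ℕ} {i j : ℕ} (h : i ≤ j) : prd m i ∣ prd m j := by
  induction j, h using Nat.le_induction with
  | base => exact dvd_rfl
  | succ j _ ih =>
    rw [prd_succ]
    exact ih.mul_right _

theorem trm_dvd {m : ℕ} {i j : ℕ} (h : i < j) : trm m i ∣ prd m j := by
  have h1 : trm m i ∣ prd m (i + 1) := by
    rw [prd_succ]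
    exact Dvd.intro_left _ rfl
  exact h1.trans (prd_dvd h)

theorem coprime_lt {m : ℕ} (hm : 1 ≤ m) {i j : ℕ} (h : i < j) : (trm m i).Coprime (trm m j) :=
  ((coprime_trm hm j).coprime_dvd_right (trm_dvd h)).symm

theorem coprime_ne {m : ℕ} (hm : 1 ≤ m) {i j : ℕ} (h : i ≠ j) : (trm m i).Coprime (trm m j) := by
  rcases lt_or_gt_of_ne h with h1 | h1
  · exact coprime_lt hm h1
  · exact (coprime_lt hm h1).symm

theorem trm_inj {m : ℕ} (hm : 1 ≤ m) : Function.Injective (trm m) := by
  intro i j hij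
  by_contra hne
  have h1 := coprime_ne hm hne
  rw [hij, Nat.coprime_self] at h1
  have := two_le_trm m j
  omega

theorem not_dvd_start {m : ℕ} (hm : 1 ≤ m) {n p : ℕ} (hp : p.Prime) (h : p ∣ trm m n) : ¬ p ∣ m := by
  intro h1
  have h2 : p ∣ prd m n := h1.trans (prd_dvd (i := 0) (Nat.zero_le n))
  have h3 := Nat.dvd_gcd h h2
  rw [(coprime_trm hm n)] at h3
  exact hp.one_lt.ne' (Nat.dvd_one.1 h3)

/-- the prime factors of a composite term are missing -/
theorem missing_of_dvd {m : ℕ} (hm : 1 ≤ m) {n p : ℕ} (hp : p.Prime) (h : p ∣ trm m n)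
    (hn : ¬ (trm m n).Prime) : p ∈ missing m := by
  refine ⟨hp, not_dvd_start hm hp h, ?_⟩
  intro k hk
  by_cases hkn : k = n
  · subst hkn
    rw [hk] at hn
    exact hn hp
  · have h1 := coprime_ne hm hkn
    rw [hk] at h1
    exact hp.one_lt.ne' (Nat.eq_one_of_dvd_coprimes h1 dvd_rfl h)

theorem leastNew_spec {k : ℕ} (hk : 1 ≤ k) : (leastNew k).Prime ∧ ¬ leastNew k ∣ k := by
  have h : {p : ℕ | p.Prime ∧ ¬ p ∣ k}.Nonempty := by
    obtain ⟨p, hp, hpr⟩ := Nat.exists_infinite_primes (k + 1)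
    exact ⟨p, hpr, fun h => by have := Nat.le_of_dvd hk h; omega⟩
  exact Nat.sInf_mem h

theorem leastNew_min {k p : ℕ} (hp : p.Prime) (h : ¬ p ∣ k) : leastNew k ≤ p :=
  Nat.sInf_le (show p ∈ {p : ℕ | p.Prime ∧ ¬ p ∣ k} from ⟨hp, h⟩)

theorem dvd_prd {m : ℕ} {p : ℕ} (hp : p.Prime) (n : ℕ) (h : p ∣ prd m n) : p ∣ m ∨ ∃ i < n, p ∣ trm m i := by
  induction n with
  | zero => exact Or.inl h
  | succ n ih =>
    rw [prd_succ] at h
    rcases hp.dvd_mul.1 h with h | h
    · rcases ih h with h | ⟨i, hi, h⟩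
      · exact Or.inl h
      · exact Or.inr ⟨i, by omega, h⟩
    · exact Or.inr ⟨n, by omega, h⟩

/-- the equivalence -/
theorem allOccur_iff {m : ℕ} (hm : 1 ≤ m) : AllOccur m ↔
    (∀ n, (trm m n).Prime) ∧ ∀ N, ∃ n, N ≤ n ∧ (prd m n + leastNew (prd m n)).Prime := by
  constructor
  · intro h
    refine ⟨?_, ?_⟩
    · intro n
      by_contra hn
      obtain ⟨p, hp, hpd⟩ := Nat.exists_prime_and_dvd (n := trm m n) (by have := two_le_trm m n; omega)
      obtain ⟨-, h1, h2⟩ := missing_of_dvd hm hp hpd hn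
      obtain ⟨k, hk⟩ := h p hp h1
      exact h2 k hk
    · intro N
      obtain ⟨hr, hrd⟩ := leastNew_spec (prd_pos hm N)
      have h0 : ¬ leastNew (prd m N) ∣ m := fun h1 => hrd (h1.trans (prd_dvd (i := 0) (Nat.zero_le N)))
      obtain ⟨k, hk⟩ := h _ hr h0
      have hkN : N ≤ k := by
        by_contra hlt
        push Not at hlt
        exact hrd (hk ▸ trm_dvd hlt)
      refine ⟨k, hkN, ?_⟩
      have h1 : leastNew (prd m k) = leastNew (prd m N) := by
        refine le_antisymm (leastNew_min hr ?_) ?_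
        · intro h2
          have h3 := coprime_trm hm k
          rw [hk] at h3
          exact hr.one_lt.ne' (Nat.eq_one_of_dvd_coprimes h3 dvd_rfl h2)
        · obtain ⟨h2, h3⟩ := leastNew_spec (prd_pos hm k)
          exact leastNew_min h2 fun h4 => h3 (h4.trans (prd_dvd hkN))
      rw [h1, ← hk, prd_add_trm]
      exact (nextP_spec _).1
  · rintro ⟨h1, h2⟩ p hp hpm
    by_contra hcon
    push Not at hcon
    have h3 : ∀ n, ¬ p ∣ prd m n := by
      intro n hn
      rcases dvd_prd hp n hn with h | ⟨i, -, h⟩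
      · exact hpm h
      · exact hcon i ((Nat.prime_dvd_prime_iff_eq hp (h1 i)).1 h).symm
    have h4 : {n | trm m n ≤ p}.Infinite := by
      rw [Set.infinite_iff_exists_gt]
      intro N
      obtain ⟨n, hn, hpr⟩ := h2 (N + 1)
      refine ⟨n, ?_, by omega⟩
      have h5 := leastNew_min hp (h3 n)
      have h6 := (leastNew_spec (prd_pos hm n)).1.two_le
      have h7 := nextP_min (P := prd m n) hpr (by omega)
      change nextP (prd m n) - prd m n ≤ p
      omega
    refine h4 (Set.Finite.of_finite_image ((Set.finite_Iic p).subset ?_) (trm_inj hm).injOn)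
    rintro _ ⟨n, hn, rfl⟩
    exact hn

end Pool.Agent.Work.MP_d20435_h42
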